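import Pool.Agent.BHM.Manifold

/-!
# MP_09b571_gt: biharmonic hypersurfaces of the unit sphere have constant mean curvature

Definitions: `Pool/Agent/BHM/Defs.lean`.
-/

set_option autoImplicit false

namespace Pool.Agent.Results.MP_09b571_gt.BiharmonicHypersurfaces

open scoped Manifold ContDiff

/-- Let `M` be a connected smooth manifold of dimension `m` and let `φ` be an immersion of `M` in the
unit sphere of `ℝ^(m+2)` which is a biharmonic map for the induced metric. Then the mean curvature
`|H|` is constant on `M` (in every chart). -/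
theorem result (m : ℕ) (M : Type*) [TopologicalSpace M]
    [ChartedSpace (EuclideanSpace ℝ (Fin m)) M] [IsManifold (𝓡 m) ∞ M] [ConnectedSpace M]
    (φ : M → EuclideanSpace ℝ (Fin (m + 2))) (hφ : BHM.Hypersurface φ) (hb : BHM.Biharmonic φ) :
    ∃ c : ℝ, ∀ e ∈ IsManifold.maximalAtlas (𝓡 m) ∞ M, ∀ p ∈ e.source,
      ‖BHM.meanCurvature φ e p‖ = c :=
  BHM.cmc hφ hb

end Pool.Agent.Results.MP_09b571_gt.BiharmonicHypersurfaces
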